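import Pool.Agent.TH667.PCG.Red

/-!
# Generalized PCG recognition is NP-hard
-/

set_option autoImplicit false

namespace Pool.Agent.Results.MP_9390ab_lc.GenPCGNPHard

open Pool.Agent.NPC Pool.Agent.TH667.PCG

/-- Generalized PCG recognition (given a graph `G` and a set `S` of non-edges of `G`, is there a
pairwise compatibility graph on the vertices of `G` containing all edges of `G` and no pair of
`S`?) is `NP`-hard. -/
theorem result : NPHardP GenPCGRecognition := hardI_GenPCG.toNPHardP

end Pool.Agent.Results.MP_9390ab_lc.GenPCGNPHard
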